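import Pool.Agent.helper13.UN.Spec

/-!
# Project UN (MP_cf4097_nt), row FIN0: finiteness
-/

set_option autoImplicit false

open NumberField Complex

namespace Pool.Agent.UN

theorem FIN0_bd (K : Type) [Field K] [NumberField K] (c : InfinitePlace K → ℝ) :
    {x : K | IsIntegral ℤ x ∧ ∀ w : InfinitePlace K, w x ≤ c w}.Finite := by
  refine (NumberField.Embeddings.finite_of_norm_le K ℂ (∑ w : InfinitePlace K, |c w|)).subset ?_
  rintro x ⟨hx, hw⟩
  refine ⟨hx, fun φ => ?_⟩
  have h1 : ‖φ x‖ = InfinitePlace.mk φ x := rfl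
  rw [h1]
  refine (hw _).trans ((le_abs_self _).trans ?_)
  exact Finset.single_le_sum (f := fun w : InfinitePlace K => |c w|) (fun w _ => abs_nonneg _)
    (Finset.mem_univ (InfinitePlace.mk φ))

theorem FIN0 : FIN0_stmt := by
  intro K _ _
  refine ⟨fun R => ?_, fun J Y k s => ?_, fun z => ?_⟩
  · have h := FIN0_bd K (fun _ => Real.exp R)
    have hinj : Function.Injective (fun u : (𝓞 K)ˣ => ((u : 𝓞 K) : K)) := by
      intro u v huv
      exact Units.ext (RingOfIntegers.ext huv)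
    refine (h.preimage (f := fun u : (𝓞 K)ˣ => ((u : 𝓞 K) : K)) hinj.injOn).subset ?_
    intro u hu
    refine ⟨RingOfIntegers.isIntegral_coe (u : 𝓞 K), fun w => ?_⟩
    have h0 : (((u : 𝓞 K)) : K) ≠ 0 := by
      intro h1
      exact u.ne_zero (RingOfIntegers.ext h1)
    have h1 : 0 < w ((u : 𝓞 K) : K) := InfinitePlace.pos_iff.2 h0
    have h2 := (abs_le.1 (hu w)).2
    show w ((u : 𝓞 K) : K) ≤ Real.exp R
    rw [← Real.log_le_iff_le_exp h1]
    exact h2
  · have h := FIN0_bd K (fun w => s * Real.exp (cc Y k w))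
    have hinj : Function.Injective (fun x : 𝓞 K => (x : K)) := fun x y hxy => RingOfIntegers.ext hxy
    refine (h.preimage (f := fun x : 𝓞 K => (x : K)) hinj.injOn).subset ?_
    rintro x ⟨-, -, hx⟩
    exact ⟨RingOfIntegers.isIntegral_coe x, hx⟩
  · refine (Ideal.finite_setOfPred_absNorm_le (S := 𝓞 K) ⌊z⌋₊).subset ?_
    rintro I ⟨-, hI⟩
    exact Nat.le_floor hI

end Pool.Agent.UN
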